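import Pool.Agent.H8.MC.FTargets

/-!
# Board `fol_modules` (MP_64fb07_lc), row BDD: bounded components

A path in a component with at most `L` elements has at most `L - 1` edges.
-/

set_option autoImplicit false

namespace Pool.Agent.H18.MF

open Pool.Agent.H8.MC

/-- the graph of the edges between vertices of the same colour -/
def HG {V : Type} (G : SimpleGraph V) (co : V → Option (ZMod 3 × ZMod 3)) : SimpleGraph V where
  Adj a b := G.Adj a b ∧ co a = co b
  symm := ⟨fun _ _ h => ⟨h.1.symm, h.2.symm⟩⟩
  loopless := ⟨fun a h => G.loopless.irrefl a h.1⟩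

lemma walk_of_cmB {V : Type} {G : SimpleGraph V} {co : V → Option (ZMod 3 × ZMod 3)} (k : ℕ) :
    ∀ u v, CmB G co k u v → Nonempty ((HG G co).Walk u v) := by
  induction k with
  | zero =>
    rintro u v rfl
    exact ⟨SimpleGraph.Walk.nil⟩
  | succ k ih =>
    rintro u v (rfl | ⟨w, h1, h2⟩)
    · exact ⟨SimpleGraph.Walk.nil⟩
    · obtain ⟨p⟩ := ih w v h2
      exact ⟨SimpleGraph.Walk.cons (show (HG G co).Adj u w from h1) p⟩

lemma cmB_of_walk {V : Type} {G : SimpleGraph V} {co : V → Option (ZMod 3 × ZMod 3)} {u v : V}
    (p : (HG G co).Walk u v) : ∀ k, p.length ≤ k → CmB G co k u v := by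
  induction p with
  | nil =>
    intro k _
    cases k with
    | zero => rfl
    | succ k => exact Or.inl rfl
  | cons h p ih =>
    intro k hk
    rw [SimpleGraph.Walk.length_cons] at hk
    cases k with
    | zero => omega
    | succ k => exact Or.inr ⟨_, h, ih k (by omega)⟩

lemma cm_of_walk {V : Type} {G : SimpleGraph V} {co : V → Option (ZMod 3 × ZMod 3)} {u v : V}
    (p : (HG G co).Walk u v) : Cm G co u v := by
  induction p with
  | nil => exact Relation.ReflTransGen.refl
  | cons h p ih => exact Relation.ReflTransGen.head h ih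

theorem pf_BDD : T_BDD := by
  classical
  intro V _ G co L hL u v huv
  obtain ⟨p⟩ := walk_of_cmB _ u v huv
  have hp := p.toPath.2
  set q := (p.toPath : (HG G co).Walk u v) with hq
  refine cmB_of_walk q L ?_
  have h1 : q.support.toFinset.card = q.length + 1 := by
    rw [List.toFinset_card_of_nodup hp.support_nodup, SimpleGraph.Walk.length_support]
  have h2 : ((q.support.toFinset : Finset V) : Set V) ⊆ {w | Cm G co u w} := by
    intro w hw
    have hw' : w ∈ q.support := by simpa using hw
    exact cm_of_walk (q.takeUntil w hw')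
  have h3 := Set.ncard_le_ncard h2 (Set.toFinite _)
  rw [Set.ncard_coe_finset, h1] at h3
  have h4 := hL u
  omega

end Pool.Agent.H18.MF
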